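import Pool.Agent.Helper65.CS.Goals2

set_option autoImplicit false

/-!
# Project CS (MP_34c247_lc), packet TDL: translation of decision lists
-/

namespace Pool.Agent.Helper31.CS

open Pool.Agent.Helper81.CC Pool.Agent.Helper78.DT Pool.Agent.Helper51.ZP Pool.Agent.Helper65.CS

open scoped Classical

theorem card_lits (n : ℕ) (T : List (ℕ × Bool)) :
    (Finset.univ.filter fun p : Fin n × Bool => ((p.1 : ℕ), p.2) ∈ T).card ≤ T.length := by
  refine le_trans ?_ (List.toFinset_card_le T)
  refine Finset.card_le_card_of_injOn (fun p : Fin n × Bool => ((p.1 : ℕ), p.2)) ?_ ?_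
  · intro p hp
    have hp' := (Finset.mem_filter.mp (Finset.mem_coe.mp hp)).2
    simpa using hp'
  · intro p _ q _ h
    have h1 := congrArg Prod.fst h
    have h2 := congrArg Prod.snd h
    simp only at h1 h2
    exact Prod.ext (Fin.ext h1) h2

theorem sat_iff {n : ℕ} (T : List (ℕ × Bool)) (hT : ∀ p ∈ T, p.1 < n) (x : Fin n → Bool) :
    Sat (Finset.univ.filter fun p : Fin n × Bool => ((p.1 : ℕ), p.2) ∈ T) x ↔
      ∀ p ∈ T, (if h : p.1 < n then x ⟨p.1, h⟩ else false) = p.2 := by
  constructor
  · intro h p hp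
    have hpn := hT p hp
    rw [dif_pos hpn]
    have := h (⟨p.1, hpn⟩, p.2) (by
      rw [Finset.mem_filter]
      exact ⟨Finset.mem_univ _, hp⟩)
    exact this
  · intro h p hp
    have hp' := (Finset.mem_filter.mp hp).2
    have := h _ hp'
    simp only [Fin.is_lt, dif_pos] at this
    exact this

theorem tdl_stmt : Pool.Agent.Helper65.CS.TdlStmt := by
  intro n W F hF
  have hval : ∀ x : Fin n → Bool, DList.val x F = ev (tdl n F) x := by
    intro x
    induction F with
    | nil => simp [DList.val, tdl, ev]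
    | cons e F ih =>
      have ih' := ih (fun e' he' => hF e' (List.mem_cons_of_mem _ he'))
      have hs := sat_iff e.1 (fun p hp => (((hF e List.mem_cons_self).2.2) p hp).1) x
      have ht : tdl n (e :: F) =
          (Finset.univ.filter fun p : Fin n × Bool => ((p.1 : ℕ), p.2) ∈ e.1, e.2) ::
            tdl n F := rfl
      rw [ht]
      by_cases h : Sat (Finset.univ.filter fun p : Fin n × Bool => ((p.1 : ℕ), p.2) ∈ e.1) x
      · have h' := hs.mp h
        rw [ev, if_pos h, DList.val, if_pos h']
      · have h' := fun h'' => h (hs.mpr h'')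
        rw [ev, if_neg h, DList.val, if_neg h', ih']
  refine ⟨?_, ?_, ?_, hval, ?_⟩
  · intro e he
    obtain ⟨e', he', rfl⟩ := List.mem_map.mp he
    exact (card_lits n e'.1).trans (hF e' he').2.1
  · intro e he v hv
    obtain ⟨e', he', rfl⟩ := List.mem_map.mp he
    have h1 := (Finset.mem_filter.mp hv.1).2
    have h2 := (Finset.mem_filter.mp hv.2).2
    exact ((hF e' he').2.2 _ h1).2 h2
  · simp [tdl]
  · rw [pr_eq_card, frac]
    have hc : (Fintype.card (Fin n → Bool) : ℝ) = 2 ^ n := by
      simp
    rw [hc]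
    congr 2
    refine Nat.card_congr (Equiv.subtypeEquivRight fun x => ?_)
    rw [hval x]

end Pool.Agent.Helper31.CS
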